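import Pool.Agent.H742Z.GP.Final

/-!
Greedy lattice paths with heavy negative tails: under (A+) and (A-) the `L¹` convergence of
`M_n / n` to a finite constant holds in every dimension `d ≥ 2`, and fails for `d = 1`.
-/

open MeasureTheory ProbabilityTheory Filter Topology Set
open scoped ENNReal

namespace Pool.Agent.Results.MP_18bc13_pr.AFullAnswer

/-- `v 0, …, v n` is a self-avoiding nearest-neighbour lattice path of length `n` from the
origin of `ℤ^d` (the values of `v` after time `n` play no role). -/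
def IsSAPath (d n : ℕ) (v : ℕ → Fin d → ℤ) : Prop :=
  v 0 = 0 ∧ (∀ i < n, ∑ j, |v (i + 1) j - v i j| = 1) ∧
    ∀ i ≤ n, ∀ j ≤ n, v i = v j → i = j

/-- The set of weights `S(Γ) = ∑_{i=1}^n x(v_i)` of the self-avoiding paths of length `n`. -/
def weights (d n : ℕ) (x : (Fin d → ℤ) → ℝ) : Set ℝ :=
  {s | ∃ v, IsSAPath d n v ∧ s = ∑ i ∈ Finset.range n, x (v (i + 1))}

/-- The greedy lattice path weight `M_n`. -/
noncomputable def greedy (d n : ℕ) (x : (Fin d → ℤ) → ℝ) : ℝ := sSup (weights d n x)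

/-- The assertion of Q1 in dimension `d`: for all i.i.d. real weights with (A+) and (A-) there is
a real `M` with `E|M_n / n - M| → 0`. -/
def L1Convergence (d : ℕ) : Prop :=
  ∀ (Ω : Type) [MeasurableSpace Ω] (P : Measure Ω) [IsProbabilityMeasure P]
    (X : (Fin d → ℤ) → Ω → ℝ), (∀ v, Measurable (X v)) → iIndepFun X P →
    (∀ v, IdentDistrib (X v) (X 0) P P) →
    (∃ α : ℝ, 0 < α ∧ ∫⁻ ω, ENNReal.ofReal
      (max (X 0 ω) 0 ^ d * max (Real.log (max (X 0 ω) 0)) 0 ^ ((d : ℝ) + α)) ∂P < ∞) →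
    (∫⁻ t in Ioi (0 : ℝ), (P {ω | X 0 ω < -t}) ^ (2 * d) < ∞) →
    ∃ M : ℝ, Tendsto (fun n : ℕ =>
      ∫⁻ ω, ENNReal.ofReal |greedy d n (fun v => X v ω) / n - M| ∂P) atTop (𝓝 0)

theorem result (d : ℕ) (hd : 1 ≤ d) :
    (∀ (n : ℕ) (x : (Fin d → ℤ) → ℝ), IsGreatest (weights d n x) (greedy d n x)) ∧
    (∀ (Ω : Type) [MeasurableSpace Ω] (X : (Fin d → ℤ) → Ω → ℝ), (∀ v, Measurable (X v)) →
      ∀ n, Measurable fun ω => greedy d n fun v => X v ω) ∧
    (L1Convergence d ↔ 2 ≤ d) :=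
  ⟨Pool.Agent.H742Z.GP.greedy_isGreatest hd,
    fun _ _ X hm n => Pool.Agent.H742Z.GP.measurable_greedy hd X hm n,
    Pool.Agent.H742Z.GP.answer hd⟩

end Pool.Agent.Results.MP_18bc13_pr.AFullAnswer
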